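import Pool.Agent.K3h28.FR.Bool

/-!
# Extensions by groups of functions of finite range are Farrell-Jones groups (MP_e40716_gt)

`C` is any class of groups with the closure properties `ClosedE C`, all of which are known for the
class of the groups that satisfy the K-theoretic Farrell-Jones conjecture with coefficients in
additive categories and finite wreath products.

Part (1). Let `N` be a normal subgroup of `Γ` with `Γ ⧸ N` in `C`, and let `φ i : N → K i` be
homomorphisms which separate the elements of `N`. Nothing is assumed about homomorphisms of `Γ`, and
`Γ` may permute the kernels of the `φ i` in an arbitrary way; but for every finite subset `E` of `N`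
there are only finitely many restrictions of the `φ i` to `E`, up to the isomorphisms of a given
groupoid of isomorphisms between the `K i` whose automorphisms have mapping tori in `C`. Then `Γ` is
in `C`.

Part (2). If `K` is nontrivial, has trivial centre and is not a direct product and all mapping tori of
`K` are in `C`, then `C` is closed under extensions whose kernel is a Boolean power of `K`, for instance
the group `C(Z, K)` of the locally constant functions on a compact space `Z` (nothing is assumed
about the extension).

Part (3). If `K` and `Q` are in `C` and `Q` acts on a set `Ω`, then the semidirect product of the group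
of all functions `Ω → K` of finite range with `Q` is in `C`, and so are its subgroups, for instance
`C(Z, K) ⋊ Q` if `Q` acts on a compact space `Z`.

Outline of the proof of (1). Let `g` be in `Γ` and `E` a finite subset of `N`. The restrictions of the
`φ i` to the group `M` generated by `E` and `g E g⁻¹` are, up to isomorphisms, given by a finite set `V`;
put an arrow from `v` to `w` if `φ w (g x g⁻¹) = α (φ v x)` for `x` in `E` and some isomorphism `α`. Each
vertex has an arrow that leaves it and one that enters it, but in general the arrows cannot be
chosen as a permutation of `V` (there may be vertices on no closed walk). For each `v` there is an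
infinite walk in both directions through `v` which is periodic near `-∞` and near `+∞`, and
`x ↦ (φ (W n) x)` is a homomorphism from `M` to the group of the sequences in `K v` which are periodic
near both ends. Conjugation by `g` on `E` is realized by a twisted shift of these sequences. By the
realization criterion (starting file of MP_490288_al) it remains to show that the mapping tori of
twisted shifts on these sequences are in `C`. Modulo the sequences of finite support they embed
in a product of the two mapping tori of periodic sequences, which have a subgroup of finite
index in a finite product of groups `K ⋊ ℤ`; and conjugation on sequences of finite support is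
realized in a mapping torus of periodic sequences with a large period.

For (2) one shows that every surjective homomorphism from the Boolean power to `K` is the evaluation
at an ultrafilter followed by an endomorphism of `K`.
-/

set_option autoImplicit false

namespace Pool.Agent.Results.MP_e40716_gt.FiniteRangeFunctions

open Pool.Agent.Y110.FJ Pool.Agent.K3h28.FR

/-- the groups `K ⋊ ℤ` are in `C` if `ℤ` acts by an automorphism in `A` -/
def ToriIn (C : ∀ (G : Type) [Group G], Prop) (K : Type) [Group K] (A : Set (MulAut K)) : Prop :=
  ∀ α ∈ A, C (K ⋊[zpowersHom (MulAut K) α] Multiplicative ℤ)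

/-- the homomorphisms `φ i` separate the elements of `N` -/
def Separating {N I : Type} [Group N] {K : I → Type} [∀ i, Group (K i)] (φ : ∀ i, N →* K i) :
    Prop :=
  ∀ x, (∀ i, φ i x = 1) → x = 1

/-- for all `i` and `g` there are `j` and an isomorphism `α` in `A` with `φ j (g x g⁻¹) = α (φ i x)` for
all `x` in `N` -/
def Permuted {Γ I : Type} [Group Γ] {N : Subgroup Γ} {K : I → Type} [∀ i, Group (K i)]
    (A : ∀ i j, Set (K i ≃* K j)) (φ : ∀ i, N →* K i) : Prop :=
  ∀ (i : I) (g : Γ), ∃ j, ∃ α ∈ A i j, ∀ x y : N, (y : Γ) = g * x * g⁻¹ → φ j y = α (φ i x)

/-- for every finite subset `E` of `N` there are finitely many `φ j` such that every `φ i` agrees on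
`E` with one of them up to an isomorphism in `A` -/
def LocallyFinite {N I : Type} [Group N] {K : I → Type} [∀ i, Group (K i)]
    (A : ∀ i j, Set (K i ≃* K j)) (φ : ∀ i, N →* K i) : Prop :=
  ∀ E : Set N, E.Finite → ∃ J : Set I, J.Finite ∧
    ∀ i, ∃ j ∈ J, ∃ α ∈ A i j, ∀ x ∈ E, φ j x = α (φ i x)

/-- Let `C` be a class of groups with the closure properties `ClosedE C`.
(1) Let `N` be a normal subgroup of `Γ` with `Γ ⧸ N` in `C`, let `A` be a set of isomorphisms between
groups `K i` which is closed under composition and inverses and contains the inner automorphisms, such
that `K i ⋊ ℤ` is in `C` if `ℤ` acts by an automorphism in `A`, and let `φ i : N → K i` be a separating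
family of homomorphisms which is permuted by `Γ` and locally finite, up to `A`. Then `Γ` is in `C`.
(2) Let `K` be a nontrivial group with trivial centre which is not the direct product of two
nontrivial subgroups, and let `K ⋊ ℤ` be in `C` for all automorphisms of `K`. Then `Γ` is in `C` if it
has a normal subgroup `N` isomorphic to a Boolean power of `K` such that `Γ ⧸ N` is in `C`.
(3) Let `K` and `Q` be in `C` and let `Q` act on the set `Ω`. Then the semidirect product of the group
of the functions from `Ω` to `K` with finitely many values and `Q` is in `C`. -/
theorem result (C : ∀ (G : Type) [Group G], Prop) (hC : ClosedE C) :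
    (∀ (Γ : Type) [Group Γ] (N : Subgroup Γ) [N.Normal] (I : Type) (K : I → Type)
      [∀ i, Group (K i)] (A : ∀ i j, Set (K i ≃* K j)) (φ : ∀ i, N →* K i), C (Γ ⧸ N) →
        IsGpd K A → (∀ i, ToriIn C (K i) (A i i)) → Separating φ → Permuted A φ →
        LocallyFinite A φ → C Γ) ∧
    (∀ (K : Type) [Group K] [Nontrivial K], Indec K → ToriIn C K Set.univ →
      ∀ (Ω : Type) (R : Set (Set Ω)) (hR : MeasureTheory.IsSetRing R) (Γ : Type) [Group Γ]
        (N : Subgroup Γ) [N.Normal], C (Γ ⧸ N) → Nonempty (N ≃* BPow K R hR) → C Γ) ∧
    (∀ (Ω K Q : Type) [Group K] [Group Q] [MulAction Q Ω], C K → C Q →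
      C (FinRange Ω K ⋊[finRangeAct Ω K Q] Q)) := by
  refine ⟨?_, ?_, ?_⟩
  · intro Γ _ N _ I K _ A φ hQ hG hA hsep hinv hfin
    exact main hC N hQ K A hG (fun i α hα => hA i α hα) φ hsep hinv hfin
  · intro K _ _ hK hKC Ω R hR Γ _ N _ hQ ⟨e⟩
    exact C_bpow hC K hK (fun α => hKC α trivial) R hR N e hQ
  · intro Ω K Q _ _ _ hK hQ
    exact C_finRange hC Ω K Q hK hQ

end Pool.Agent.Results.MP_e40716_gt.FiniteRangeFunctions
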