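import Pool.Agent.K3h41.MG.KTh

/-!
# The Farrell-Jones conjecture in degrees `≤ 1` passes to generic limits of torsion-free groups

The marked groups with generators indexed by a countable type `κ`, that is the normal subgroups `N`
of the free group on `κ`, form a compact metrizable space. For a countable group `T` the marked
groups `Γ` such that all finitely generated projective modules over `ℤ[Γ × T]` are stably free form
a `G_δ` set, and so do the marked groups such that the Whitehead group of `Γ × T` is zero: an
identity between matrices over `ℤ[Γ × T]` which are given by matrices over `ℤ[F_κ × T]` is an open
condition on `Γ`. Hence the vanishing of these groups for all groups of a set `X` of marked groups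
implies the vanishing for comeagrely many groups of the closure of `X`.
-/

namespace Pool.Agent.Results.MP_e40716_gt.GenericLimits

open Pool.Agent.K3h41.MG

/-- Let `X` be a set of torsion-free marked groups `Γ` with `K̃₀(ℤ[Γ × ℤⁿ]) = 0` and
`Wh(Γ × ℤⁿ) = 0` for all `n`. Then comeagrely many marked groups in the closure of `X`, which is a
Baire space, are torsion-free and have the same property. -/
theorem result (κ : Type) [Countable κ] (X : Set (Marked κ)) (hX : ∀ N ∈ X, LowFJ N.grp) :
    BaireSpace (closure X) ∧ {N : closure X | LowFJ N.1.grp} ∈ residual (closure X) :=
  ⟨Marked.baire X, residual_low X hX⟩

end Pool.Agent.Results.MP_e40716_gt.GenericLimits
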