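import Pool.Agent.K3h89.FJ.RelC
import Pool.Agent.Y778.NK.KMS
import Pool.Agent.Y43.NK.Int
import Pool.Agent.Y43.NK.Cyc
import Pool.Agent.Y43.NK.Artin
import Pool.Agent.Y785.NK.Comb
import Pool.Agent.Y350.NK.Gen
import Pool.Agent.Y44.NK.Pow

/-!
# The relative form of the injectivity in degree `-1`, and independent classes in the quotient

For every group `G` the assembly map `colim K₋₁(ℤ[H]) → K₋₁(ℤ[G])` over the finite subgroups is
rationally injective (starting theorem `DegreeMinusOne`). Here it is shown that it stays so after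
dividing out, on both sides, the relations given by any set `Θ` of injective homomorphisms
`θ : A → G` of subgroups `A` of `G` and the images of the groups `K₋₁(ℤ[H])`, `H` in any set `𝓗` of
subgroups of `G`; and the quotient of `K₋₁(ℤ[G])` is shown to contain explicit independent classes
coming from finite cyclic subgroups.

The groups `KM P G`, the colimit `KMColim P G` and the maps `KM.map`, `KMColim.ι`, `KF.incl` are
those of `Pool.Agent.Y778.NK.KMS` (namespace `Pool.Agent.Y778.NK.KS`).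
-/

set_option autoImplicit false

namespace Pool.Agent.Results.MP_e40716_gt.RelativeDegreeMinusOne

open Pool.Agent.Y69 Pool.Agent.Y778.NK.KS

noncomputable section

/-- The equivalence relation on `G` generated by conjugation and by `a ~ θ(a)` for the members
`θ : A → G` of `Θ` and `a ∈ A`. -/
def Rel {G : Type} [Group G] (Θ : Set (Σ A : Subgroup G, A →* G)) : G → G → Prop :=
  Relation.EqvGen fun g g' => (∃ a : G, g' = a * g * a⁻¹) ∨ ∃ s ∈ Θ, ∃ k : s.1, g = k ∧ g' = s.2 k

/-- The subgroup of `KM(P, G)` generated by the differences `θ(y) - i(y)`, for `θ : A → G` in `Θ`,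
`i : A → G` the inclusion and `y` in `KM(P, A)`, and by the images of the groups `KM(P, H)`,
`H ∈ 𝓗`. -/
def kmRel (P : Set Nat.Primes) {G : Type} [Group G] (Θ : Set (Σ A : Subgroup G, A →* G))
    (𝓗 : Set (Subgroup G)) : AddSubgroup (KM P G) :=
  AddSubgroup.closure ({z | ∃ s ∈ Θ, ∃ y : KM P s.1, z = KM.map P s.2 y - KM.map P s.1.subtype y} ∪
    {z | ∃ H ∈ 𝓗, ∃ y : KM P H, z = KM.map P H.subtype y})

/-- The subgroup of `colim KM(P, H)` generated by the elements `[K', κ(w)] - [K, w]`, for finite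
subgroups `K`, `K'` of `G` and a map `κ : K → K'` which is the restriction of a member of `Θ`, and
by the elements `[K, w]` for the finite subgroups `K` of members of `𝓗`. -/
def colimRel (P : Set Nat.Primes) {G : Type} [Group G] (Θ : Set (Σ A : Subgroup G, A →* G))
    (𝓗 : Set (Subgroup G)) : AddSubgroup (KMColim P G) :=
  AddSubgroup.closure ({z | ∃ s ∈ Θ, ∃ (K K' : FinSub G) (κ : K.1 →* K'.1) (w : KF P K),
      (∀ k : K.1, ∃ hk : (k : G) ∈ s.1, (κ k : G) = s.2 ⟨k, hk⟩) ∧
      z = KMColim.ι K' (KF.map P κ w) - KMColim.ι K w} ∪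
    {z | ∃ H ∈ 𝓗, ∃ K : FinSub G, K.1 ≤ H ∧ ∃ w : KF P K, z = KMColim.ι K w})

/-- For a finite group `C` and a prime `q` in `P` the class in `KM(P, C)` of the family which is
`[ℚ_q]` (the trivial representation of `C` over `ℚ_q`) at `q` and `0` at the other primes. -/
def trivialAt (P : Set Nat.Primes) (C : Type) [Group C] [Finite C] (q : P) : KM P C :=
  QuotientAddGroup.mk' (Glob P C)
    (show Loc P C from DFinsupp.single (β := fun p : P => KQp p C) q
      (fromQ (q : Nat.Primes) C (Pool.Agent.Y778.NK.avgCl C)))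

/-- Let `G` be a group, `P` a set of primes, `Θ` a set of injective homomorphisms `A → G` defined on
subgroups `A` of `G`, and `𝓗` a set of subgroups of `G`.

(1) The assembly map `A : colim KM(P, H) → KM(P, G)` over the finite subgroups maps `colimRel` into
`kmRel`, and if a positive multiple of `A x` lies in `kmRel`, then a positive multiple of `x` lies
in `colimRel`.

(2) Let `(g i)` be a family of elements of finite order of `G`, none of them related (by `Rel`) to
an element of a member of `𝓗`, and such that no power of `g i` is related to `g j` for `i ≠ j`; let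
`q₀ i ∈ P` be a prime divisor of the order of `g i`. Then the images in `KM(P, G) / kmRel` of the
classes `trivialAt` of the cyclic groups generated by the `g i`, for the prime divisors `q ≠ q₀ i`
in `P` of the order of `g i`, are linearly independent over `ℤ`. -/
theorem result (G : Type) [Group G] (P : Set Nat.Primes) (Θ : Set (Σ A : Subgroup G, A →* G))
    (𝓗 : Set (Subgroup G)) (hΘ : ∀ s ∈ Θ, Function.Injective s.2) :
    (∃ A : KMColim P G →+ KM P G,
      (∀ (H : FinSub G) (x : KF P H), A (KMColim.ι H x) = KF.incl H x) ∧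
      (∀ x ∈ colimRel P Θ 𝓗, A x ∈ kmRel P Θ 𝓗) ∧
      ∀ x, (∃ n : ℕ, 0 < n ∧ n • A x ∈ kmRel P Θ 𝓗) →
        ∃ l : ℕ, 0 < l ∧ l • x ∈ colimRel P Θ 𝓗) ∧
    ∀ (I : Type) (g : I → G) [∀ i, Finite (Subgroup.zpowers (g i))] (q₀ : I → P),
      (∀ i, ((q₀ i : Nat.Primes) : ℕ) ∣ orderOf (g i)) →
      (∀ i, ∀ H ∈ 𝓗, ∀ z ∈ H, ¬ Rel Θ z (g i)) →
      (∀ i j, i ≠ j → ∀ k : ℤ, ¬ Rel Θ (g i ^ k) (g j)) →
      LinearIndependent ℤ fun x : {x : I × P // ((x.2 : Nat.Primes) : ℕ) ∣ orderOf (g x.1) ∧
          x.2 ≠ q₀ x.1} =>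
        (QuotientAddGroup.mk' (kmRel P Θ 𝓗) (KM.map P (Subgroup.zpowers (g x.1.1)).subtype
          (trivialAt P _ x.1.2)) : KM P G ⧸ kmRel P Θ 𝓗) := by
  refine ⟨⟨Pool.Agent.Y778.NK.asKM P G, Pool.Agent.Y778.NK.asKM_ι, ?_, ?_⟩, ?_⟩
  · intro x hx
    exact Pool.Agent.K3h89.FJ.asKM_CR Θ 𝓗 x hx
  · rintro x ⟨n, hn, hx⟩
    exact Pool.Agent.K3h89.FJ.main_rel Θ 𝓗 Pool.Agent.Y43.NK.artin Pool.Agent.Y350.NK.tors
      Pool.Agent.Y43.NK.int Pool.Agent.Y350.NK.gen Pool.Agent.Y44.NK.Pow.pow
      (Pool.Agent.Y785.NK.comb Pool.Agent.Y43.NK.cyc) hΘ x n hn hx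
  · intro I g hf q₀ hq hH hs
    exact Pool.Agent.K3h89.FJ.indep Θ 𝓗 hΘ g q₀ hq hH hs

end

end Pool.Agent.Results.MP_e40716_gt.RelativeDegreeMinusOne
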