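import Pool.Agent.K3h89.FJ.ExpD
import Pool.Agent.Y778.NK.KMS
import Pool.Agent.Y43.NK.Int
import Pool.Agent.Y350.NK.Gen
import Pool.Agent.Y44.NK.Pow

/-!
# The exponent of the kernel of the assembly map in degree `-1`

For every group `G` the kernel of the assembly map `A : colim K₋₁(ℤ[H]) → K₋₁(ℤ[G])` over the finite
subgroups `H` of `G` is a torsion group (starting theorem `DegreeMinusOne`). Here the orders of its
elements are bounded: let `x` be a sum of classes of elements of `K₋₁(ℤ[H])` for finite subgroups `H`
whose order divides `m`. If `A x` is a torsion element, for example if `A x = 0`, then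
`(m * w) • x = 0` for every common multiple `w` of the indices of the centralizers of the cyclic
subgroups of `G` of order dividing `m` in their normalizers, for example for `w = φ(m)`. So if the
orders of the finite subgroups of `G` divide `m`, the kernel of `A` and the torsion subgroup of
`colim K₋₁(ℤ[H])` are killed by `m * φ(m)`, and `A` becomes injective as soon as the prime divisors
of `m * φ(m)` are inverted.

The groups `KM P G`, the colimit `KMColim P G` and the maps `KMColim.ι`, `KF.incl` are those of
`Pool.Agent.Y778.NK.KMS` (namespace `Pool.Agent.Y778.NK.KS`).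
-/

set_option autoImplicit false

namespace Pool.Agent.Results.MP_e40716_gt.UniformExponent

open Pool.Agent.Y69 Pool.Agent.Y778.NK.KS

noncomputable section

/-- The subgroup of `colim KM(P, H)` generated by the classes of the elements of the groups
`KM(P, H)` for the finite subgroups `H` of `G` whose order divides `m`. -/
def Part (P : Set Nat.Primes) (G : Type) [Group G] (m : ℕ) : AddSubgroup (KMColim P G) :=
  AddSubgroup.closure {z | ∃ H : FinSub G, Nat.card H.1 ∣ m ∧ ∃ y : KF P H, z = KMColim.ι H y}

/-- Let `G` be a group and `P` a set of primes. Let `A : colim KM(P, H) → KM(P, G)` be the assembly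
map over the finite subgroups.

(1) Let `m` and `w` be integers such that for every cyclic subgroup `C` of `G` whose order divides
`m` the index of the centralizer of `C` in the normalizer of `C` divides `w`. If `x` lies in
`Part P G m` and a positive multiple of `A x` is zero, then `(m * w) • x = 0`.

(2) If `x` lies in `Part P G m` and a positive multiple of `A x` is zero, then
`(m * φ m) • x = 0`.

(3) If the orders of all finite subgroups of `G` divide `m`, then `(m * φ m) • x = 0` for all `x` in
`colim KM(P, H)` such that a positive multiple of `A x` is zero. -/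
theorem result (G : Type) [Group G] (P : Set Nat.Primes) :
    ∃ A : KMColim P G →+ KM P G,
      (∀ (H : FinSub G) (x : KF P H), A (KMColim.ι H x) = KF.incl H x) ∧
      (∀ m w : ℕ, (∀ C : Subgroup G, IsCyclic C → Nat.card C ∣ m →
          (Subgroup.centralizer (C : Set G)).relIndex (Subgroup.normalizer (C : Set G)) ∣ w) →
        ∀ x ∈ Part P G m, (∃ n : ℕ, 0 < n ∧ n • A x = 0) → (m * w) • x = 0) ∧
      (∀ m : ℕ, ∀ x ∈ Part P G m, (∃ n : ℕ, 0 < n ∧ n • A x = 0) →
        (m * Nat.totient m) • x = 0) ∧
      ∀ m : ℕ, (∀ H : Subgroup G, Finite H → Nat.card H ∣ m) → ∀ x : KMColim P G,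
        (∃ n : ℕ, 0 < n ∧ n • A x = 0) → (m * Nat.totient m) • x = 0 := by
  have h1 : ∀ m w : ℕ, (∀ C : Subgroup G, IsCyclic C → Nat.card C ∣ m →
          (Subgroup.centralizer (C : Set G)).relIndex (Subgroup.normalizer (C : Set G)) ∣ w) →
        ∀ x ∈ Part P G m, (∃ n : ℕ, 0 < n ∧ n • Pool.Agent.Y778.NK.asKM P G x = 0) →
          (m * w) • x = 0 := by
    rintro m w hw x hx ⟨n, hn, h0⟩
    exact Pool.Agent.K3h89.FJ.Exp.main_exp Pool.Agent.Y350.NK.tors Pool.Agent.Y43.NK.int
      Pool.Agent.Y350.NK.gen Pool.Agent.Y44.NK.Pow.pow m w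
      (fun H hH hm => by
        rw [Pool.Agent.K3h89.FJ.Exp.card_Gam]
        exact hw H.1 hH hm) x hx n hn h0
  have h2 : ∀ m : ℕ, ∀ x ∈ Part P G m, (∃ n : ℕ, 0 < n ∧ n • Pool.Agent.Y778.NK.asKM P G x = 0) →
        (m * Nat.totient m) • x = 0 := by
    rintro m x hx ⟨n, hn, h0⟩
    exact Pool.Agent.K3h89.FJ.Exp.main_exp Pool.Agent.Y350.NK.tors Pool.Agent.Y43.NK.int
      Pool.Agent.Y350.NK.gen Pool.Agent.Y44.NK.Pow.pow m (Nat.totient m)
      (fun H hH hm => by
        have := H.2
        have e1 : Nat.card (MulAut H.1) = Nat.totient (Nat.card H.1) := IsCyclic.card_mulAut H.1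
        have e2 : Nat.card (Pool.Agent.K3h89.FJ.Exp.Gam H.1) ∣ Nat.card (MulAut H.1) :=
          Subgroup.card_subgroup_dvd_card _
        exact (e1 ▸ e2).trans (Nat.totient_dvd_of_dvd hm)) x hx n hn h0
  refine ⟨Pool.Agent.Y778.NK.asKM P G, Pool.Agent.Y778.NK.asKM_ι, h1, h2, ?_⟩
  intro m hm x hx
  refine h2 m x ?_ hx
  have hall : ∀ x : Pool.Agent.Y778.NK.ColKM P G, x ∈ Part P G m := by
    intro x
    induction x using Colim.induction with
    | h0 => exact AddSubgroup.zero_mem _
    | hadd x y hx hy => exact AddSubgroup.add_mem _ hx hy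
    | hneg x hx => exact AddSubgroup.neg_mem _ hx
    | hι H x => exact AddSubgroup.subset_closure ⟨H, hm H.1 H.2, x, rfl⟩
  exact hall x

end

end Pool.Agent.Results.MP_e40716_gt.UniformExponent
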